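import Mathlib
import Pool.Agent.QL543.Fin
import Pool.Agent.QL543.Ar5

/-!
# All moments of the ranks in a family of cubic twists

`D` runs over the cube-free numbers prime to `3`, not `±1` modulo `9`, with exactly one prime factor
`≡ 2` modulo `3`; `C_D` is the cubic `x³ + y³ = D`, in Weierstrass form `y² = x³ - 432 D²`, and
`E_D : y² + D y = x³` is the `3`-isogenous curve.

* The number of the splittings of `D` (a finite set defined by cubic residues between the prime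
  factors of `D`) is `3 ^ (s + 1)` with `rank C_D(ℚ) ≤ 2 s` and `rank E_D(ℚ) ≤ 2 s`.
* The proportion of the `D` with `3 ^ (s + 1)` splittings is
  `P_s = 3^(-s²) ∏_{i ≥ 1} (1 - 3^(-i)) / ∏_{i = 1}^s (1 - 3^(-i))²`, up to `O((log X)^(-1/25))`, uniformly
  in `s`; these numbers sum to `1` and their tails are at most `3 * 3^(-s²)`.
* So the proportion of the `D` with rank larger than `2 r` is at most
  `3 * 3^(-(r + 1)²) + O((log X)^(-1/30))`, uniformly in `r`, and all moments of the rank are bounded on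
  average, with `limsup (average of rank ^ k) ≤ ∑_s (2 s)^k P_s`; the average rank is at most `0.92`.

The arithmetic over `ℚ(ω)` and the counting of prime factors are joint work of many agents, see
`Pool/Agent/Y703/CT`, `Pool/Agent/Y703/CX`, `Pool/Agent/R419/CF`, `Pool/Agent/R419/KL`; the parts
special to this file are in `Pool/Agent/QL543` (helper543).
-/

set_option autoImplicit false

open scoped Classical

namespace Pool.Agent.Results.MP_157626_nt.CubicTwistMoments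

/-- the curve `E_D : y² + D y = x³` over `ℚ` -/
def E (D : ℕ) : WeierstrassCurve ℚ := { a₁ := 0, a₂ := 0, a₃ := (D : ℚ), a₄ := 0, a₆ := 0 }

/-- the curve `C_D : y² = x³ - 432 D²` over `ℚ`, the Weierstrass form of the cubic `x³ + y³ = D` -/
def C (D : ℕ) : WeierstrassCurve ℚ :=
  { a₁ := 0, a₂ := 0, a₃ := 0, a₄ := 0, a₆ := -432 * (D : ℚ) ^ 2 }

/-- the larger one of the ranks of `E_D(ℚ)` and `C_D(ℚ)` (the ranks are equal, as the curves are
isogenous; this is not used here) -/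
noncomputable def rk (D : ℕ) : ℕ :=
  max (Module.finrank ℤ (E D).toAffine.Point) (Module.finrank ℤ (C D).toAffine.Point)

/-- the class: `D` cube-free, prime to `3`, not `±1` modulo `9`, exactly one prime factor
congruent to `2` modulo `3` -/
def Class (D : ℕ) : Prop :=
  D ≠ 0 ∧ (∀ p : ℕ, p.Prime → ¬ p ^ 3 ∣ D) ∧ ¬ 3 ∣ D ∧ D % 9 ≠ 1 ∧ D % 9 ≠ 8 ∧
    ∃ q : ℕ, q.Prime ∧ q % 3 = 2 ∧ q ∣ D ∧ ∀ p : ℕ, p.Prime → p ∣ D → p ≠ q → p % 3 = 1

/-- the numbers of the class up to `X` -/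
noncomputable def Cl (X : ℕ) : Finset ℕ := (Finset.Icc 1 X).filter Class

/-- the splittings of `D`: the families `(d₀, d₁, d₂)` of pairwise coprime numbers with product `D`
such that `d₁ d₂²`, `d₂ d₀²`, `d₀ d₁²` are cubes modulo the primes dividing `d₀`, `d₁`, `d₂` -/
def Splittings (D : ℕ) : Set (ZMod 3 → ℕ) :=
  {d | ∏ c, d c = D ∧ (∀ c c', c ≠ c' → Nat.Coprime (d c) (d c')) ∧
    ∀ (c : ZMod 3) (p : ℕ), p.Prime → p ∣ d c →
      ∃ x : ℤ, (p : ℤ) ∣ (d (c + 1) : ℤ) * (d (c + 2) : ℤ) ^ 2 - x ^ 3}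

/-- the limit `P_s = 3^(-s²) ∏_{i ≥ 1} (1 - 3^(-i)) / ∏_{i = 1}^s (1 - 3^(-i))²` -/
noncomputable def P (s : ℕ) : ℝ :=
  (1 / 3 : ℝ) ^ (s ^ 2) * (∏' i : ℕ, (1 - (1 / 3 : ℝ) ^ (i + 1))) /
    (∏ i ∈ Finset.range s, (1 - (1 / 3 : ℝ) ^ (i + 1))) ^ 2

theorem class_iff (D : ℕ) : Class D ↔ Pool.Agent.Y703.CT.Cls D := by
  unfold Class Pool.Agent.Y703.CT.Cls Pool.Agent.Y703.CT.Base
  constructor
  · rintro ⟨h1, h2, h3, h4, h5, h6⟩
    exact ⟨⟨h1, h3, h2⟩, h4, h5, h6⟩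
  · rintro ⟨⟨h1, h3, h2⟩, h4, h5, h6⟩
    exact ⟨h1, h2, h3, h4, h5, h6⟩

theorem Cl_eq (X : ℕ) : Cl X = (Finset.Icc 1 X).filter Pool.Agent.Y703.CT.Cls := by
  unfold Cl
  exact Finset.filter_congr fun D _ => class_iff D

theorem filter_eq (X : ℕ) (T : ℕ → Prop) {h1 : DecidablePred T}
    {h2 : DecidablePred fun D => Pool.Agent.Y703.CT.Cls D ∧ T D} :
    (((@Finset.filter ℕ T h1 (Cl X)).card : ℕ) : ℝ) =
      (((@Finset.filter ℕ (fun D => Pool.Agent.Y703.CT.Cls D ∧ T D) h2 (Finset.Icc 1 X)).card : ℕ)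
        : ℝ) := by
  congr 2
  ext D
  rw [Finset.mem_filter, Finset.mem_filter, Cl_eq, Finset.mem_filter, and_assoc]

theorem P_eq (s : ℕ) : P s = Pool.Agent.QL543.pr s := rfl

theorem rk_le {D : ℕ} (hD : Pool.Agent.Y703.CT.Cls D) : rk D ≤ 2 * Pool.Agent.QL543.sd D := by
  have h1 := Pool.Agent.QL543.rank_Q hD (Pool.Agent.QL543.sd_spec hD)
  have h2 := Pool.Agent.QL543.rank_F hD (Pool.Agent.QL543.sd_spec hD)
  exact max_le h1 h2

open Filter in
theorem ev_iff {p : ℕ → Prop} (h : ∀ᶠ X : ℕ in atTop, p X) : ∃ X₀ : ℕ, ∀ X : ℕ, X₀ ≤ X → p X :=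
  eventually_atTop.1 h

/-- **Theorem.** The class has at least `c X / √(log X)` elements up to `X`. Every `D` of the class
has `3 ^ (s + 1)` splittings for some `s`, and the ranks of `E_D(ℚ)` and `C_D(ℚ)` are at most `2 s`.
The proportion of the `D` of the class up to `X` with `3 ^ (s + 1)` splittings is
`P_s + O((log X)^(-1/25))`, uniformly in `s`; here `∑ P_s = 1` and `∑_{i ≥ s} P_i ≤ 3 * 3^(-s²)`. So the
proportion of those with a rank larger than `2 r` is at most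
`∑_{i > r} P_i + O((log X)^(-1/30))`, uniformly in `r`, and for every `k` the upper limit of the average
of the `k`-th power of the rank is at most `∑_s (2 s)^k P_s`, a finite number, which is less than
`0.92` for `k = 1` and less than `2` for `k = 2`. -/
theorem result :
    -- the size of the class
    (∃ c : ℝ, 0 < c ∧ ∃ X₀ : ℕ, ∀ X : ℕ, X₀ ≤ X →
      c * X / Real.sqrt (Real.log X) ≤ ((Cl X).card : ℝ)) ∧
    -- the splittings bound the ranks
    (∀ D : ℕ, Class D → ∃ s : ℕ, (Splittings D).ncard = 3 ^ (s + 1) ∧ rk D ≤ 2 * s) ∧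
    -- the limit distribution
    ((∀ s : ℕ, 0 ≤ P s) ∧ HasSum P 1 ∧
      ∀ s : ℕ, 1 - ∑ i ∈ Finset.range s, P i ≤ 3 * (1 / 3 : ℝ) ^ (s ^ 2)) ∧
    -- the law of the number of the splittings, with rate and uniformly in `s`
    (∃ (A : ℝ) (X₀ : ℕ), ∀ X : ℕ, X₀ ≤ X → ∀ s : ℕ,
      |(((Cl X).filter fun D => (Splittings D).ncard = 3 ^ (s + 1)).card : ℝ) -
        P s * ((Cl X).card : ℝ)| ≤ A * (Real.log X) ^ (-(1 / 25) : ℝ) * ((Cl X).card : ℝ)) ∧
    -- the tails of the ranks, uniformly in `r`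
    (∃ (A : ℝ) (X₀ : ℕ), ∀ X : ℕ, X₀ ≤ X → ∀ r : ℕ,
      (((Cl X).filter fun D => 2 * r < rk D).card : ℝ) ≤
        ((1 - ∑ i ∈ Finset.range (r + 1), P i) + A * (Real.log X) ^ (-(1 / 30) : ℝ)) *
          ((Cl X).card : ℝ)) ∧
    -- all moments of the ranks
    (∀ k : ℕ, (Summable fun s : ℕ => (2 * (s : ℝ)) ^ k * P s) ∧
      ∀ ε : ℝ, 0 < ε → ∃ X₀ : ℕ, ∀ X : ℕ, X₀ ≤ X →
        ∑ D ∈ Cl X, (rk D : ℝ) ^ k ≤
          (∑' s : ℕ, (2 * (s : ℝ)) ^ k * P s + ε) * ((Cl X).card : ℝ)) ∧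
    -- numerical values
    0.56 < P 0 ∧ ∑' s : ℕ, (2 * (s : ℝ)) ^ 1 * P s < 0.92 ∧
      ∑' s : ℕ, (2 * (s : ℝ)) ^ 2 * P s < 2 := by
  have hrk : ∀ D : ℕ, Pool.Agent.Y703.CT.Cls D → rk D ≤ 2 * Pool.Agent.QL543.sd D :=
    fun D hD => rk_le hD
  refine ⟨?_, ?_, ⟨Pool.Agent.QL543.pr_nonneg, Pool.Agent.QL543.pr_sum,
    Pool.Agent.QL543.pr_tail⟩, ?_, ?_, ?_, ?_, Pool.Agent.QL543.mom_one,
    Pool.Agent.QL543.mom_two⟩
  · obtain ⟨c, hc, X₀, h⟩ := Pool.Agent.R419.CF.low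
    refine ⟨c, hc, X₀, fun X hX => ?_⟩
    rw [Cl_eq]
    exact h X hX
  · intro D hD
    have hD' := (class_iff D).1 hD
    exact ⟨Pool.Agent.QL543.sd D, Pool.Agent.QL543.sd_spec hD', hrk D hD'⟩
  · obtain ⟨A, hA, h⟩ := Pool.Agent.QL543.law_rate
    obtain ⟨X₀, h⟩ := ev_iff (h.and (Pool.Agent.Y703.CX.ev_eL 1))
    refine ⟨A, X₀, fun X hX s => ?_⟩
    obtain ⟨h1, h2⟩ := h X hX
    have h3 := h1 s
    rw [Pool.Agent.Y703.CX.rpow_eL (by linarith), filter_eq X, Cl_eq]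
    exact h3
  · obtain ⟨A, hA, h⟩ := Pool.Agent.QL543.tail_rk hrk
    obtain ⟨X₀, h⟩ := ev_iff (h.and (Pool.Agent.Y703.CX.ev_eL 1))
    refine ⟨A, X₀, fun X hX r => ?_⟩
    obtain ⟨h1, h2⟩ := h X hX
    have h3 := h1 r
    rw [Pool.Agent.Y703.CX.rpow_eL (by linarith), filter_eq X, Cl_eq]
    exact h3
  · intro k
    refine ⟨Pool.Agent.QL543.mom_sum k, fun ε hε => ?_⟩
    obtain ⟨X₀, h⟩ := ev_iff (Pool.Agent.QL543.mom_rk hrk k ε hε)
    refine ⟨X₀, fun X hX => ?_⟩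
    rw [Cl_eq]
    exact h X hX
  · have h : P 0 = Pool.Agent.Y703.CX.c3 := by
      unfold P Pool.Agent.Y703.CX.c3
      norm_num
    rw [h]
    exact Pool.Agent.QL543.c3_gt

end Pool.Agent.Results.MP_157626_nt.CubicTwistMoments
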